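import Pool.Agent.Helper24.AL.St
import Pool.Agent.Helper56.SW.Basic

set_option autoImplicit false

namespace Pool.Agent.Helper67.AL

open Finset
open Pool.Agent.Helper56.SW (τ I mem_I mem_I')
open Pool.Agent.Helper24.AL

/-- the set of pairs `(u, w)` -/
noncomputable def SS (c A B : ℕ) : Finset ((ℤ × ℤ) × (ℤ × ℤ)) :=
  (Bz A B ×ˢ Bz (3 * A) (3 * B)).filter fun p =>
    (c : ℤ) ∣ p.1.1 * p.2.2 - p.2.1 * p.1.2 ∧ p.1.1 * p.2.2 ≠ p.2.1 * p.1.2

/-- gcd with `c` -/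
def gd (c : ℕ) (w : ℤ × ℤ) : ℕ := Int.gcd (Int.gcd w.1 w.2) c

lemma gd_mem (c : ℕ) (hc : 1 ≤ c) (w : ℤ × ℤ) : gd c w ∈ c.divisors := by
  rw [Nat.mem_divisors]
  refine ⟨?_, by omega⟩
  have := Int.gcd_dvd_right (Int.gcd w.1 w.2 : ℤ) (c : ℤ)
  exact_mod_cast this

lemma mem_Bz {A B : ℕ} {w : ℤ × ℤ} :
    w ∈ Bz A B ↔ (|w.1| ≤ A ∧ |w.2| ≤ B) ∧ w.1 ≠ 0 ∧ w.2 ≠ 0 := by
  rw [Bz, mem_filter, mem_product, mem_I, mem_I]

lemma mx_mem {A B : ℕ} {w : ℤ × ℤ} (hw : w ∈ Bz A B) : mx A B w ∈ Finset.Icc 1 A := by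
  rw [Bz, mem_filter, mem_product, mem_I', mem_I'] at hw
  obtain ⟨⟨h1, h2⟩, h3, h4⟩ := hw
  have h5 : 0 < w.1.natAbs := Int.natAbs_pos.mpr h3
  have h6 : 0 < w.2.natAbs := Int.natAbs_pos.mpr h4
  rw [Finset.mem_Icc, mx]
  refine ⟨le_min ?_ ?_, (min_le_left _ _).trans (Nat.div_le_self _ _)⟩
  · exact (Nat.one_le_div_iff h5).mpr h1
  · exact (Nat.one_le_div_iff h6).mpr h2

lemma harm (A : ℕ) : ∑ m ∈ Finset.Icc 1 A, ((m : ℝ))⁻¹ ≤ 1 + Real.log A := by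
  have h := harmonic_le_one_add_log A
  rw [harmonic_eq_sum_Icc] at h
  push_cast at h
  exact h

lemma sumS (hG2 : StG2) (c A B : ℕ) (D : ℝ) (hc : 1 ≤ c)
    (hD : ∀ j : ℕ, 1 ≤ j → j ≤ 3 * A * B → τ j ≤ D) :
    ∑ p ∈ SS c A B, ((gd c p.1 : ℝ) * gd c p.2 * mx A B p.1) ≤
      288 * D ^ 2 * ((A : ℝ) * B) ^ 2 / c * (τ c ^ 2 * (1 + Real.log A)) := by
  have hcR : (0 : ℝ) < c := by exact_mod_cast hc
  have hmaps : ∀ p ∈ SS c A B, ((gd c p.1, gd c p.2), mx A B p.1) ∈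
      (c.divisors ×ˢ c.divisors) ×ˢ Finset.Icc 1 A := by
    intro p hp
    rw [SS, mem_filter, mem_product] at hp
    rw [mem_product, mem_product]
    exact ⟨⟨gd_mem c hc _, gd_mem c hc _⟩, mx_mem hp.1.1⟩
  rw [← Finset.sum_fiberwise_of_maps_to hmaps]
  have hfib : ∀ y ∈ (c.divisors ×ˢ c.divisors) ×ˢ Finset.Icc 1 A,
      ∑ p ∈ (SS c A B).filter (fun p => ((gd c p.1, gd c p.2), mx A B p.1) = y),
        ((gd c p.1 : ℝ) * gd c p.2 * mx A B p.1) ≤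
      288 * D ^ 2 * ((A : ℝ) * B) ^ 2 / c * ((y.2 : ℝ))⁻¹ := by
    rintro ⟨⟨κ, g⟩, m⟩ hy
    rw [mem_product, mem_product, Nat.mem_divisors, Nat.mem_divisors, Finset.mem_Icc] at hy
    obtain ⟨⟨⟨hκ, -⟩, ⟨hg, -⟩⟩, ⟨hm, -⟩⟩ := hy
    simp only at hκ hg hm
    have h1 : ∑ p ∈ (SS c A B).filter (fun p => ((gd c p.1, gd c p.2), mx A B p.1) = ((κ, g), m)),
        ((gd c p.1 : ℝ) * gd c p.2 * mx A B p.1) =
        (((SS c A B).filter
          (fun p => ((gd c p.1, gd c p.2), mx A B p.1) = ((κ, g), m))).card : ℝ) *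
          ((κ : ℝ) * g * m) := by
      rw [Finset.sum_congr rfl (g := fun _ => ((κ : ℝ) * g * m)), sum_const, nsmul_eq_mul]
      intro p hp
      have := (mem_filter.mp hp).2
      simp only [Prod.mk.injEq] at this
      rw [this.1.1, this.1.2, this.2]
    rw [h1]
    have h2 := hG2 c A B κ g m D hc hκ hg hm hD
    have h3 : ((SS c A B).filter
          (fun p => ((gd c p.1, gd c p.2), mx A B p.1) = ((κ, g), m))).card ≤
        ((Bz A B ×ˢ Bz (3 * A) (3 * B)).filter fun p =>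
      mx A B p.1 = m ∧ Int.gcd (Int.gcd p.1.1 p.1.2) c = κ ∧
      Int.gcd (Int.gcd p.2.1 p.2.2) c = g ∧
      (c : ℤ) ∣ p.1.1 * p.2.2 - p.2.1 * p.1.2 ∧ p.1.1 * p.2.2 ≠ p.2.1 * p.1.2).card := by
      refine Finset.card_le_card fun p hp => ?_
      rw [mem_filter, SS, mem_filter] at hp
      rw [mem_filter]
      have h4 := hp.2
      simp only [Prod.mk.injEq, gd] at h4
      exact ⟨hp.1.1, h4.2, h4.1.1, h4.1.2, hp.1.2.1, hp.1.2.2⟩
    have h4 : (((SS c A B).filter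
          (fun p => ((gd c p.1, gd c p.2), mx A B p.1) = ((κ, g), m))).card : ℝ) ≤
        288 * D ^ 2 * ((A : ℝ) * B) ^ 2 / ((m : ℝ) ^ 2 * κ * g * c) :=
      le_trans (by exact_mod_cast h3) h2
    have hκ0 : 0 < κ := Nat.pos_of_dvd_of_pos hκ hc
    have hg0 : 0 < g := Nat.pos_of_dvd_of_pos hg hc
    have hκR : (0 : ℝ) < κ := by exact_mod_cast hκ0
    have hgR : (0 : ℝ) < g := by exact_mod_cast hg0
    have hmR : (0 : ℝ) < m := by exact_mod_cast hm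
    calc _ ≤ 288 * D ^ 2 * ((A : ℝ) * B) ^ 2 / ((m : ℝ) ^ 2 * κ * g * c) * ((κ : ℝ) * g * m) :=
          mul_le_mul_of_nonneg_right h4 (by positivity)
      _ = _ := by
          simp only
          field_simp
  refine (Finset.sum_le_sum hfib).trans ?_
  rw [← Finset.mul_sum]
  refine mul_le_mul_of_nonneg_left ?_ (by positivity)
  rw [Finset.sum_product]
  simp only [sum_const, nsmul_eq_mul, card_product]
  have hτ : (τ c : ℝ) = c.divisors.card := by simp [τ]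
  push_cast
  rw [← hτ, pow_two]
  refine mul_le_mul_of_nonneg_left (harm A) (mul_self_nonneg _)

lemma fin3 (i x : Fin 3) : x = i ∨ x = i + 1 ∨ x = i + 2 := by
  revert i x; decide

lemma sg_eq (t : Fin 3 → ℤ) (i : Fin 3) : sg t = t i + t (i + 1) + t (i + 2) := by
  fin_cases i <;> simp [sg] <;> ring

lemma sg_abs {A : ℕ} {t : Fin 3 → ℤ} (h : ∀ i, |t i| ≤ A) : |sg t| ≤ 3 * A := by
  have h0 := abs_le.mp (h 0)
  have h1 := abs_le.mp (h 1)
  have h2 := abs_le.mp (h 2)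
  rw [sg, abs_le]
  constructor <;> linarith [h0.1, h0.2, h1.1, h1.2, h2.1, h2.2]

lemma col_of {t b : Fin 3 → ℤ} {w1 w2 : ℤ} (h2 : w2 ≠ 0)
    (h : ∀ i, t i * w2 = w1 * b i) : Col t b := by
  intro i j
  have hi := h i
  have hj := h j
  have : (t i * b j) * w2 = (t j * b i) * w2 := by
    linear_combination b j * hi - b i * hj
  exact mul_right_cancel₀ h2 this

lemma mem_Bx {A B : ℕ} {p : (Fin 3 → ℤ) × (Fin 3 → ℤ)} :
    p ∈ Bx A B ↔ (∀ i, |p.1 i| ≤ A) ∧ (∀ i, |p.2 i| ≤ B) := by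
  simp only [Bx, mem_product, Fintype.mem_piFinset, mem_I]

/-- the map `(t, b) ↦ (u_i, w)` -/
def φ (i : Fin 3) (p : (Fin 3 → ℤ) × (Fin 3 → ℤ)) : (ℤ × ℤ) × (ℤ × ℤ) :=
  ((p.1 i, p.2 i), (sg p.1, sg p.2))

lemma part (hG1 : StG1) (hG2 : StG2) (c A B : ℕ) (D : ℝ) (hc : 1 ≤ c)
    (hD : ∀ j : ℕ, 1 ≤ j → j ≤ 3 * A * B → τ j ≤ D) (i : Fin 3)
    (T : Finset ((Fin 3 → ℤ) × (Fin 3 → ℤ))) (hT : T ⊆ Bx A B)
    (hnz : ∀ p ∈ T, Nz p.1 p.2) (hs1 : ∀ p ∈ T, sg p.1 ≠ 0) (hs2 : ∀ p ∈ T, sg p.2 ≠ 0)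
    (hdet : ∀ p ∈ T, ∀ i j, (c : ℤ) ∣ p.1 i * p.2 j - p.1 j * p.2 i)
    (hdw : ∀ p ∈ T, ∀ i, (c : ℤ) ∣ p.1 i * sg p.2 - sg p.1 * p.2 i)
    (hi : ∀ p ∈ T, p.1 i * sg p.2 ≠ sg p.1 * p.2 i) :
    ∑ p ∈ T, (gd c (sg p.1, sg p.2) : ℝ) ≤
      14400 * D ^ 2 * τ c ^ 2 * (1 + Real.log A) * ((A : ℝ) * B) ^ 3 / (c : ℝ) ^ 2 := by
  have hcR : (0 : ℝ) < c := by exact_mod_cast hc
  have hmaps : ∀ p ∈ T, φ i p ∈ SS c A B := by
    intro p hp
    obtain ⟨hA, hB⟩ := mem_Bx.mp (hT hp)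
    rw [SS, mem_filter, mem_product, mem_Bz, mem_Bz]
    refine ⟨⟨⟨⟨hA i, hB i⟩, (hnz p hp i).1, (hnz p hp i).2⟩, ⟨?_, ?_⟩, hs1 p hp, hs2 p hp⟩,
      hdw p hp i, hi p hp⟩
    · simp only [φ]; push_cast; exact sg_abs hA
    · simp only [φ]; push_cast; exact sg_abs hB
  rw [← Finset.sum_fiberwise_of_maps_to hmaps]
  have hfib : ∀ q ∈ SS c A B,
      ∑ p ∈ T.filter (fun p => φ i p = q), (gd c (sg p.1, sg p.2) : ℝ) ≤
      50 * A * B / c * ((gd c q.1 : ℝ) * gd c q.2 * mx A B q.1) := by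
    rintro ⟨⟨t, b⟩, ⟨w1, w2⟩⟩ hq
    rw [SS, mem_filter, mem_product, mem_Bz, mem_Bz] at hq
    obtain ⟨⟨⟨⟨ht, hb⟩, ht0, hb0⟩, ⟨hw1, hw2⟩, hw10, hw20⟩, hd, hne⟩ := hq
    simp only at ht hb ht0 hb0 hw1 hw2 hw10 hw20 hd hne
    push_cast at hw1 hw2
    have h1 := hG1 c A B t b w1 w2 hc ht0 hb0 ht hb hw1 hw2 hd hne
    have h2 : (T.filter (fun p => φ i p = ((t, b), (w1, w2)))).card ≤
        ((I A ×ˢ I B).filter fun p => (c : ℤ) ∣ t * p.2 - p.1 * b).card := by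
      refine Finset.card_le_card_of_injOn (fun p => (p.1 (i + 1), p.2 (i + 1))) ?_ ?_
      · intro p hp
        rw [Finset.mem_coe, mem_filter] at hp
        obtain ⟨hpT, hpq⟩ := hp
        obtain ⟨hA, hB⟩ := mem_Bx.mp (hT hpT)
        simp only [φ, Prod.mk.injEq] at hpq
        rw [Finset.mem_coe, mem_filter, mem_product, mem_I, mem_I]
        refine ⟨⟨hA _, hB _⟩, ?_⟩
        have := hdet p hpT i (i + 1)
        rw [hpq.1.1, hpq.1.2] at this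
        exact this
      · rintro ⟨x, y⟩ hp ⟨x', y'⟩ hp' h
        rw [Finset.mem_coe, mem_filter] at hp hp'
        obtain ⟨hpT, hpq⟩ := hp
        obtain ⟨hpT', hpq'⟩ := hp'
        simp only [φ, Prod.mk.injEq] at hpq hpq' h
        obtain ⟨⟨a1, a2⟩, a3, a4⟩ := hpq
        obtain ⟨⟨b1, b2⟩, b3, b4⟩ := hpq'
        obtain ⟨e1, e2⟩ := h
        rw [sg_eq _ i] at a3 a4 b3 b4
        have hx : x = x' := by
          funext z
          rcases fin3 i z with rfl | rfl | rfl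
          · rw [a1, b1]
          · exact e1
          · linarith
        have hy : y = y' := by
          funext z
          rcases fin3 i z with rfl | rfl | rfl
          · rw [a2, b2]
          · exact e2
          · linarith
        rw [hx, hy]
    have h3 : ∑ p ∈ T.filter (fun p => φ i p = ((t, b), (w1, w2))),
        (gd c (sg p.1, sg p.2) : ℝ) =
        ((T.filter (fun p => φ i p = ((t, b), (w1, w2)))).card : ℝ) * gd c (w1, w2) := by
      rw [Finset.sum_congr rfl (g := fun _ => (gd c (w1, w2) : ℝ)), sum_const, nsmul_eq_mul]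
      intro p hp
      have := (mem_filter.mp hp).2
      simp only [φ, Prod.mk.injEq] at this
      rw [this.2.1, this.2.2]
    rw [h3]
    have h4 : ((T.filter (fun p => φ i p = ((t, b), (w1, w2)))).card : ℝ) ≤
        50 * A * B * (Int.gcd (Int.gcd t b) c : ℝ) * mx A B (t, b) / c :=
      le_trans (by exact_mod_cast h2) h1
    calc _ ≤ 50 * A * B * (Int.gcd (Int.gcd t b) c : ℝ) * mx A B (t, b) / c * gd c (w1, w2) :=
          mul_le_mul_of_nonneg_right h4 (by positivity)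
      _ = _ := by
          simp only [gd]
          ring
  refine (Finset.sum_le_sum hfib).trans ?_
  rw [← Finset.mul_sum]
  refine (mul_le_mul_of_nonneg_left (sumS hG2 c A B D hc hD) (by positivity)).trans ?_
  apply le_of_eq
  field_simp
  ring

open Classical in
theorem hG (hG1 : StG1) (hG2 : StG2) (hLAM6 : StLAM6) : StG := by
  intro c A B D hc hA hB hD
  set P : (Fin 3 → ℤ) × (Fin 3 → ℤ) → Prop :=
    fun p => Nz p.1 p.2 ∧ ¬ Col p.1 p.2 ∧ sg p.1 ≠ 0 ∧ sg p.2 ≠ 0 with hP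
  set T : Fin 3 → Finset ((Fin 3 → ℤ) × (Fin 3 → ℤ)) := fun i =>
    (Bx A B).filter (fun p => P p ∧ 0 < Lam c p.1 p.2 ∧ p.1 i * sg p.2 ≠ sg p.1 * p.2 i) with hT
  have h0 : ∀ i, ∑ p ∈ T i, (gd c (sg p.1, sg p.2) : ℝ) ≤
      14400 * D ^ 2 * τ c ^ 2 * (1 + Real.log A) * ((A : ℝ) * B) ^ 3 / (c : ℝ) ^ 2 := by
    intro i
    refine part hG1 hG2 c A B D hc hD i (T i) (filter_subset _ _) ?_ ?_ ?_ ?_ ?_ ?_
    · intro p hp; exact (mem_filter.mp hp).2.1.1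
    · intro p hp; exact (mem_filter.mp hp).2.1.2.2.1
    · intro p hp; exact (mem_filter.mp hp).2.1.2.2.2
    · intro p hp; exact (hLAM6 c p.1 p.2 hc (mem_filter.mp hp).2.2.1).2.1
    · intro p hp; exact (hLAM6 c p.1 p.2 hc (mem_filter.mp hp).2.2.1).2.2.1
    · intro p hp; exact (mem_filter.mp hp).2.2.2
  have h1 : (WT c A B (fun t b => Nz t b ∧ ¬ Col t b ∧ sg t ≠ 0 ∧ sg b ≠ 0) : ℝ) ≤
      ∑ i : Fin 3, ∑ p ∈ T i, (gd c (sg p.1, sg p.2) : ℝ) := by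
    have h2 : (WT c A B (fun t b => Nz t b ∧ ¬ Col t b ∧ sg t ≠ 0 ∧ sg b ≠ 0)) ≤
        ∑ i : Fin 3, ∑ p ∈ T i, gd c (sg p.1, sg p.2) := by
      have h3 : (WT c A B (fun t b => Nz t b ∧ ¬ Col t b ∧ sg t ≠ 0 ∧ sg b ≠ 0)) =
          ∑ p ∈ (Bx A B).filter P, Lam c p.1 p.2 := by
        unfold WT
        refine Finset.sum_congr ?_ fun _ _ => rfl
        ext p
        simp only [mem_filter, hP]
      rw [h3]
      simp only [hT, Finset.sum_filter]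
      rw [Finset.sum_comm]
      refine Finset.sum_le_sum fun p hp => ?_
      by_cases hPp : P p
      · rw [if_pos hPp]
        rcases Nat.eq_zero_or_pos (Lam c p.1 p.2) with h | h
        · rw [h]; exact Nat.zero_le _
        · have h4 : ∃ i, p.1 i * sg p.2 ≠ sg p.1 * p.2 i := by
            by_contra hcon
            push Not at hcon
            exact hPp.2.1 (col_of hPp.2.2.2 hcon)
          obtain ⟨i, hi⟩ := h4
          calc Lam c p.1 p.2 ≤ gd c (sg p.1, sg p.2) := (hLAM6 c p.1 p.2 hc h).1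
            _ = if P p ∧ 0 < Lam c p.1 p.2 ∧ p.1 i * sg p.2 ≠ sg p.1 * p.2 i then
                gd c (sg p.1, sg p.2) else 0 := by
                  rw [if_pos ⟨hPp, h, hi⟩]
            _ ≤ _ := Finset.single_le_sum (f := fun i => if P p ∧ 0 < Lam c p.1 p.2 ∧
                p.1 i * sg p.2 ≠ sg p.1 * p.2 i then gd c (sg p.1, sg p.2) else 0)
                (fun _ _ => Nat.zero_le _) (mem_univ i)
      · rw [if_neg hPp]; exact Nat.zero_le _
    exact_mod_cast h2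
  refine h1.trans ((Finset.sum_le_sum fun i _ => h0 i).trans ?_)
  rw [sum_const, card_univ, Fintype.card_fin, nsmul_eq_mul]
  apply le_of_eq
  push_cast
  ring

end Pool.Agent.Helper67.AL
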